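import Pool.Agent.Q163.LP.Lim
import Pool.Agent.Q163.LP.Son

/-!
# `ln(k+2)/k!` is a multiplier sequence
-/

namespace Pool.Agent.Results.MP_13c559_an.LogIsMultiplier

open Polynomial Filter Topology
open Pool.Agent.Helper771.MultSeq Pool.Agent.Q163.LP

/-- all zeros of `p` in `ℂ` are real -/
def RealZeros (p : ℝ[X]) : Prop := ∀ z : ℂ, aeval z p = 0 → z.im = 0

/-- Multiplier sequences (of the first kind): if `p = ∑ a_k x^k` has only real zeros, so has
`∑ γ_k a_k x^k`. -/
def IsMult (γ : ℕ → ℝ) : Prop :=
  ∀ p : ℝ[X], RealZeros p → RealZeros (p.sum fun k a => monomial k (γ k * a))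

/-- `LP⁺`: limits, uniformly on compact subsets of `ℂ`, of real polynomials all of whose zeros are
real and non-positive. -/
def InLPplus (f : ℂ → ℂ) : Prop := ∃ P : ℕ → ℝ[X],
  (∀ n, ∀ z : ℂ, aeval z (P n) = 0 → z.im = 0 ∧ z.re ≤ 0) ∧
  ∀ K : Set ℂ, IsCompact K → TendstoUniformlyOn (fun n (z : ℂ) => aeval z (P n)) f atTop K

lemma log_pos' (k : ℕ) : 0 < Real.log ((k : ℝ) + 2) :=
  Real.log_pos (by have : (0 : ℝ) ≤ k := by positivity
                   linarith)

/-- `λ_k = ln(k+2)/k!` is a multiplier sequence, and `∑ λ_k x^k/k!` is in `LP⁺`. -/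
theorem result :
    IsMult (fun k => Real.log ((k : ℝ) + 2) / (k.factorial : ℝ)) ∧
    InLPplus (fun x => ∑' k : ℕ,
      ((Real.log ((k : ℝ) + 2) / (k.factorial : ℝ) ^ 2 : ℝ) : ℂ) * x ^ k) := by
  constructor
  · intro p hp
    have hp0 : p ≠ 0 := by
      rintro rfl
      have := hp Complex.I (by simp)
      simp at this
    have h1 := ms_log p (Or.inr hp)
    rcases h1 with h | h
    · exfalso
      apply hp0
      ext k
      have h2 := congrArg (fun r => coeff r k) h
      simp only [act_eq, coeff_zero] at h2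
      rw [coeff_zero]
      rcases mul_eq_zero.1 h2 with h3 | h3
      · exfalso
        have : 0 < Real.log ((k : ℝ) + 2) / (k.factorial : ℝ) :=
          div_pos (log_pos' k) (by positivity)
        linarith
      · exact h3
    · exact h
  · have hdiv : ∀ k : ℕ, Real.log ((k : ℝ) + 2) / (k.factorial : ℝ) / (k.factorial : ℝ) =
        Real.log ((k : ℝ) + 2) / (k.factorial : ℝ) ^ 2 := by
      intro k
      rw [div_div]
      congr 1
      ring
    obtain ⟨P, hP1, _, hP3⟩ := lp_of_ms ms_log
      (fun k => (div_pos (log_pos' k) (by positivity)).le)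
      ⟨0, (div_pos (log_pos' 0) (by positivity)).ne'⟩ (by
      intro R hR
      simp_rw [hdiv]
      refine Summable.of_nonneg_of_le
        (fun k => mul_nonneg (div_pos (log_pos' k) (by positivity)).le (by positivity))
        (fun k => ?_)
        ((Real.summable_pow_div_factorial R).mul_left 2)
      have h3 : (1 : ℝ) ≤ k.factorial := by exact_mod_cast Nat.succ_le_of_lt k.factorial_pos
      have h4 : Real.log ((k : ℝ) + 2) ≤ 2 * k.factorial := by
        have h5 : Real.log ((k : ℝ) + 2) ≤ (k : ℝ) + 2 - 1 :=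
          Real.log_le_sub_one_of_pos (by positivity)
        have h6 : (k : ℝ) ≤ k.factorial := by exact_mod_cast Nat.self_le_factorial k
        linarith
      rw [div_mul_eq_mul_div, div_le_iff₀ (by positivity)]
      have h7 : 2 * (R ^ k / (k.factorial : ℝ)) * (k.factorial : ℝ) ^ 2 =
          (2 * k.factorial) * R ^ k := by
        field_simp
      rw [h7]
      exact mul_le_mul_of_nonneg_right h4 (by positivity))
    simp_rw [hdiv] at hP3
    exact ⟨P, hP1, fun K hK => (tendstoLocallyUniformly_iff_forall_isCompact.1 hP3) K hK⟩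

end Pool.Agent.Results.MP_13c559_an.LogIsMultiplier
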